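import Pool.Agent.Lib.MP_dd84fd_nt.RR.Rel
import Pool.Agent.Lib.MP_dd84fd_nt.L2G.Defs

/-!
# MP_dd84fd, kernel trichotomy KT (helper98's G98 paper, section 5), proof by helper5
-/

set_option autoImplicit false

namespace Pool.Agent.Lib.MP_dd84fd_nt.RR

open Pool.MP_dd84fd_nt.L2G

/-- the pairs counted in the kernel trichotomy -/
noncomputable def ktSet (N : ℕ) (Δ al al' : ℝ) : Finset (ℕ × ℕ) :=
  ((Finset.Icc 1 N) ×ˢ (Finset.Icc 1 N)).filter (fun p => nrm (p.1 * al - p.2 * al') ≤ Δ)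

private theorem nrm_le (x : ℝ) (k : ℤ) : nrm x ≤ |x - k| := round_le x k

/-- KT: kernel trichotomy, for any subset of the pairs -/
theorem kt_sub (N : ℕ) (Δ al al' : ℝ) (hΔ : 0 ≤ Δ) (P : Finset (ℕ × ℕ)) (hP : P ⊆ ktSet N Δ al al') :
    (P.card : ℝ) ≤ 81 * (N : ℝ) ^ 2 * Δ ∨
    (∃ d : ℕ, 1 ≤ d ∧ (d : ℝ) * P.card ≤ 9 * (N : ℝ) ^ 2 ∧
      nrm (d * al) * P.card ≤ 18 * N * Δ ∧ nrm (d * al') * P.card ≤ 18 * N * Δ) ∨
    (∃ u v : ℕ, 1 ≤ u ∧ 1 ≤ v ∧ (u : ℝ) * P.card ≤ N ∧ (v : ℝ) * P.card ≤ N ∧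
      nrm (u * al - v * al') * P.card ≤ Δ) := by
  classical
  rcases P.eq_empty_or_nonempty with rfl | hne
  · left
    simp only [Finset.card_empty, Nat.cast_zero]
    positivity
  have hmem : ∀ p ∈ P, 1 ≤ p.1 ∧ p.1 ≤ N ∧ 1 ≤ p.2 ∧ p.2 ≤ N ∧ nrm (p.1 * al - p.2 * al') ≤ Δ := by
    intro p hp
    have h := hP hp
    simp only [ktSet, Finset.mem_filter, Finset.mem_product, Finset.mem_Icc] at h
    exact ⟨h.1.1.1, h.1.1.2, h.1.2.1, h.1.2.2, h.2⟩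
  let f : ℕ × ℕ → ℤ × ℤ × ℤ := fun p => (p.1, p.2, round ((p.1 : ℝ) * al - p.2 * al'))
  have hf : Function.Injective f := by
    intro p q hpq
    have e1 : (p.1 : ℤ) = q.1 := congrArg Prod.fst hpq
    have e2 : (p.2 : ℤ) = q.2 := congrArg (fun z => z.2.1) hpq
    ext
    · exact_mod_cast e1
    · exact_mod_cast e2
  have hV : RelSet al al' Δ N (P.image f) := by
    intro v hv
    obtain ⟨p, hp, rfl⟩ := Finset.mem_image.mp hv
    obtain ⟨h1, h2, h3, h4, h5⟩ := hmem p hp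
    refine ⟨?_, ?_, ?_, ?_, ?_⟩
    · simp only [f]; omega
    · simp only [f]; exact_mod_cast h2
    · simp only [f]; omega
    · simp only [f]; exact_mod_cast h4
    · simpa [mE, f, nrm] using h5
  have hcard := Finset.card_image_of_injective P hf
  have hN : (1 : ℝ) ≤ N := by
    obtain ⟨p, hp⟩ := hne
    obtain ⟨h1, h2, _⟩ := hmem p hp
    exact_mod_cast h1.trans h2
  by_cases h3 : ∃ u ∈ P.image f, ∃ v ∈ P.image f, ∃ w ∈ P.image f, mD u v w ≠ 0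
  · left
    have := rank3 hV hΔ h3
    rwa [hcard] at this
  push Not at h3
  by_cases h2 : ∃ v ∈ P.image f, ∃ w ∈ P.image f, mP v w ≠ 0
  · obtain ⟨D, hD, h4, ⟨a, ha⟩, a', ha'⟩ := rank2 hV hΔ h3 h2
    rw [hcard] at h4 ha ha'
    refine Or.inr (Or.inl ⟨D, hD, h4, le_trans ?_ ha, le_trans ?_ ha'⟩)
    · gcongr; exact nrm_le _ _
    · gcongr; exact nrm_le _ _
  push Not at h2
  by_cases h1 : ∃ v ∈ P.image f, ∃ w ∈ P.image f, w.1 * v.2.2 ≠ v.1 * w.2.2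
  · left
    have := rank2v hV h2 h1
    rw [hcard] at this
    refine this.trans ?_
    have h18 : (18 : ℝ) * N ≤ 81 * (N : ℝ) ^ 2 := by nlinarith
    exact mul_le_mul_of_nonneg_right h18 hΔ
  push Not at h1
  obtain ⟨m, m', k, hm, hm', e1, e2, e3⟩ := rank1 hV (hne.image f) h2 h1
  rw [hcard] at e1 e2 e3
  refine Or.inr (Or.inr ⟨m, m', hm, hm', e1, e2, le_trans ?_ e3⟩)
  gcongr
  exact nrm_le _ _

/-- KT: kernel trichotomy -/
theorem kt (N : ℕ) (Δ al al' : ℝ) (hΔ : 0 ≤ Δ) :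
    ((ktSet N Δ al al').card : ℝ) ≤ 81 * (N : ℝ) ^ 2 * Δ ∨
    (∃ d : ℕ, 1 ≤ d ∧ (d : ℝ) * (ktSet N Δ al al').card ≤ 9 * (N : ℝ) ^ 2 ∧
      nrm (d * al) * (ktSet N Δ al al').card ≤ 18 * N * Δ ∧
      nrm (d * al') * (ktSet N Δ al al').card ≤ 18 * N * Δ) ∨
    (∃ u v : ℕ, 1 ≤ u ∧ 1 ≤ v ∧ (u : ℝ) * (ktSet N Δ al al').card ≤ N ∧
      (v : ℝ) * (ktSet N Δ al al').card ≤ N ∧
      nrm (u * al - v * al') * (ktSet N Δ al al').card ≤ Δ) :=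
  kt_sub N Δ al al' hΔ _ (Finset.Subset.refl _)

end Pool.Agent.Lib.MP_dd84fd_nt.RR
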