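import Pool.Agent.Lib.MP_dd84fd_nt.RR.Par

/-!
# MP_dd84fd, relation lemma (helper5)

`V` a finite set of integer triples `(m, m', k)`, `0 < m, m' ≤ M`, `|m θ - m' θ' - k| ≤ δ`, `2 M δ < 1`.
Then (rank 3) `|V| ≤ 81 M² δ`, or (rank 2) one `D ≥ 1` with `D |V| ≤ 9 M²`, `‖Dθ‖ |V|, ‖Dθ'‖ |V| ≤ 18 M δ`,
or (rank 1) one pair `m, m' ≥ 1` with `m |V|, m' |V| ≤ M`, `‖m θ - m' θ'‖ |V| ≤ δ`.
-/

set_option autoImplicit false

namespace Pool.Agent.Lib.MP_dd84fd_nt.RR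

open Matrix

/-- the 2 x 2 minor -/
def mP (v w : ℤ × ℤ × ℤ) : ℤ := v.1 * w.2.1 - w.1 * v.2.1

/-- the 3 x 3 determinant -/
def mD (u v w : ℤ × ℤ × ℤ) : ℤ := u.2.2 * mP v w - v.2.2 * mP u w + w.2.2 * mP u v

/-- the linear form -/
noncomputable def mE (θ θ' : ℝ) (v : ℤ × ℤ × ℤ) : ℝ := v.1 * θ - v.2.1 * θ' - v.2.2

/-- hypotheses on the set of relations -/
def RelSet (θ θ' δ : ℝ) (M : ℕ) (V : Finset (ℤ × ℤ × ℤ)) : Prop :=
  ∀ v ∈ V, 0 < v.1 ∧ v.1 ≤ M ∧ 0 < v.2.1 ∧ v.2.1 ≤ M ∧ |mE θ θ' v| ≤ δ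

theorem mP_abs {θ θ' δ : ℝ} {M : ℕ} {V : Finset (ℤ × ℤ × ℤ)} (hV : RelSet θ θ' δ M V)
    {v w : ℤ × ℤ × ℤ} (hv : v ∈ V) (hw : w ∈ V) : |mP v w| ≤ (M : ℤ) ^ 2 := by
  obtain ⟨a1, a2, a3, a4, _⟩ := hV v hv
  obtain ⟨b1, b2, b3, b4, _⟩ := hV w hw
  unfold mP
  have h1 : 0 ≤ v.1 * w.2.1 := by positivity
  have h2 : v.1 * w.2.1 ≤ M * M := mul_le_mul a2 b4 b3.le (by positivity)
  have h3 : 0 ≤ w.1 * v.2.1 := by positivity
  have h4 : w.1 * v.2.1 ≤ M * M := mul_le_mul b2 a4 a3.le (by positivity)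
  rw [abs_le]
  constructor <;> nlinarith

/-- rank 3 -/
theorem rank3 {θ θ' δ : ℝ} {M : ℕ} {V : Finset (ℤ × ℤ × ℤ)} (hV : RelSet θ θ' δ M V) (_hδ : 0 ≤ δ)
    (h3 : ∃ u ∈ V, ∃ v ∈ V, ∃ w ∈ V, mD u v w ≠ 0) : (V.card : ℝ) ≤ 81 * (M : ℝ) ^ 2 * δ := by
  classical
  obtain ⟨u0, hu0, v0, hv0, w0, hw0, h0⟩ := h3
  obtain ⟨⟨u, v, w⟩, hm, hmax⟩ := Finset.exists_max_image (V ×ˢ V ×ˢ V)
    (fun t => |mD t.1 t.2.1 t.2.2|) ⟨(u0, v0, w0), by simp [hu0, hv0, hw0]⟩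
  simp only [Finset.mem_product] at hm
  obtain ⟨hu, hv, hw⟩ := hm
  have hD : mD u v w ≠ 0 := by
    have := hmax (u0, v0, w0) (by simp [hu0, hv0, hw0])
    intro h
    simp only [h, abs_zero] at this
    exact h0 (abs_nonpos_iff.mp this)
  -- the matrix with columns u, v, w
  let A : Matrix (Fin 3) (Fin 3) ℤ := !![u.1, v.1, w.1; u.2.1, v.2.1, w.2.1; u.2.2, v.2.2, w.2.2]
  have hA : A.det = mD u v w := by
    simp only [A, Matrix.det_fin_three, mD, mP]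
    simp
    ring
  let f : ℤ × ℤ × ℤ → (Fin 3 → ℤ) := fun x => ![x.1, x.2.1, x.2.2]
  have hf : Function.Injective f := by
    intro x y hxy
    have e0 := congrFun hxy 0
    have e1 := congrFun hxy 1
    have e2 := congrFun hxy 2
    simp [f] at e0 e1 e2
    ext <;> assumption
  have hDR : (mD u v w : ℝ) ≠ 0 := by exact_mod_cast hD
  have hT := card_parallelepiped A (by rw [hA]; exact hD) (V.image f) (by
    intro x hx
    obtain ⟨y, hy, rfl⟩ := Finset.mem_image.mp hx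
    refine ⟨![(mD y v w : ℝ) / mD u v w, (mD u y w : ℝ) / mD u v w, (mD u v y : ℝ) / mD u v w], ?_, ?_⟩
    · have key : ∀ z : ℤ, |z| ≤ |mD u v w| → |(z : ℝ) / mD u v w| ≤ 1 := by
        intro z hz
        rw [abs_div, div_le_one (abs_pos.mpr hDR)]
        exact_mod_cast hz
      intro i
      fin_cases i
      · exact key _ (hmax (y, v, w) (by simp [hy, hv, hw]))
      · exact key _ (hmax (u, y, w) (by simp [hy, hu, hw]))
      · exact key _ (hmax (u, v, y) (by simp [hy, hv, hu]))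
    · intro i
      rw [Fin.sum_univ_three]
      fin_cases i
      · simp only [f, A]
        simp
        field_simp
        unfold mD mP
        push_cast
        ring
      · simp only [f, A]
        simp
        field_simp
        unfold mD mP
        push_cast
        ring
      · simp only [f, A]
        simp
        field_simp
        unfold mD mP
        push_cast
        ring)
  rw [Finset.card_image_of_injective _ hf, hA, Fintype.card_fin] at hT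
  have hb : |(mD u v w : ℝ)| ≤ 3 * ((M : ℝ) ^ 2 * δ) := by
    have e : (mD u v w : ℝ) = -(mE θ θ' u * mP v w - mE θ θ' v * mP u w + mE θ θ' w * mP u v) := by
      unfold mD mE mP
      push_cast
      ring
    have b1 : |mE θ θ' u * mP v w| ≤ (M : ℝ) ^ 2 * δ := by
      rw [abs_mul, mul_comm]
      have : |(mP v w : ℝ)| ≤ (M : ℝ) ^ 2 := by exact_mod_cast mP_abs hV hv hw
      exact mul_le_mul this (hV u hu).2.2.2.2 (abs_nonneg _) (by positivity)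
    have b2 : |mE θ θ' v * mP u w| ≤ (M : ℝ) ^ 2 * δ := by
      rw [abs_mul, mul_comm]
      have : |(mP u w : ℝ)| ≤ (M : ℝ) ^ 2 := by exact_mod_cast mP_abs hV hu hw
      exact mul_le_mul this (hV v hv).2.2.2.2 (abs_nonneg _) (by positivity)
    have b3 : |mE θ θ' w * mP u v| ≤ (M : ℝ) ^ 2 * δ := by
      rw [abs_mul, mul_comm]
      have : |(mP u v : ℝ)| ≤ (M : ℝ) ^ 2 := by exact_mod_cast mP_abs hV hu hv
      exact mul_le_mul this (hV w hw).2.2.2.2 (abs_nonneg _) (by positivity)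
    rw [e, abs_neg]
    rw [abs_le] at b1 b2 b3 ⊢
    constructor <;> linarith [b1.1, b1.2, b2.1, b2.2, b3.1, b3.2]
  calc (V.card : ℝ) ≤ 3 ^ 3 * |(mD u v w : ℝ)| := hT
    _ ≤ 3 ^ 3 * (3 * ((M : ℝ) ^ 2 * δ)) := by gcongr
    _ = _ := by ring

/-- rank 2 -/
theorem rank2 {θ θ' δ : ℝ} {M : ℕ} {V : Finset (ℤ × ℤ × ℤ)} (hV : RelSet θ θ' δ M V) (_hδ : 0 ≤ δ)
    (h3 : ∀ u ∈ V, ∀ v ∈ V, ∀ w ∈ V, mD u v w = 0) (h2 : ∃ v ∈ V, ∃ w ∈ V, mP v w ≠ 0) :
    ∃ D : ℕ, 1 ≤ D ∧ (D : ℝ) * V.card ≤ 9 * (M : ℝ) ^ 2 ∧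
      (∃ a : ℤ, |D * θ - a| * V.card ≤ 18 * M * δ) ∧ ∃ a : ℤ, |D * θ' - a| * V.card ≤ 18 * M * δ := by
  classical
  obtain ⟨v0, hv0, w0, hw0, h0⟩ := h2
  obtain ⟨⟨v, w⟩, hm, hmax⟩ := Finset.exists_max_image (V ×ˢ V)
    (fun t => |mP t.1 t.2|) ⟨(v0, w0), by simp [hv0, hw0]⟩
  simp only [Finset.mem_product] at hm
  obtain ⟨hv, hw⟩ := hm
  have hP : mP v w ≠ 0 := by
    have := hmax (v0, w0) (by simp [hv0, hw0])
    intro h
    simp only [h, abs_zero] at this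
    exact h0 (abs_nonpos_iff.mp this)
  let G : Submodule ℤ (ℤ × ℤ × ℤ) := Submodule.span ℤ (V : Set (ℤ × ℤ × ℤ))
  have hG : ∀ x ∈ G, mD v w x = 0 := by
    intro x hx
    refine Submodule.span_induction (p := fun x _ => mD v w x = 0) ?_ ?_ ?_ ?_ hx
    · intro x hx; exact h3 v hv w hw x hx
    · simp [mD, mP]
    · intro x y _ _ hx hy
      have : mD v w (x + y) = mD v w x + mD v w y := by
        simp only [mD, mP, Prod.fst_add, Prod.snd_add]; ring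
      rw [this, hx, hy]; ring
    · intro a x _ hx
      have : mD v w (a • x) = a * mD v w x := by
        simp only [mD, mP, Prod.smul_fst, Prod.smul_snd, smul_eq_mul]; ring
      rw [this, hx]; ring
  have hvG : v ∈ G := Submodule.subset_span hv
  have hwG : w ∈ G := Submodule.subset_span hw
  have hfr : Module.finrank ℤ G = 2 := by
    apply le_antisymm
    · let π : G →ₗ[ℤ] ℤ × ℤ :=
        ((LinearMap.fst ℤ ℤ (ℤ × ℤ)).prod ((LinearMap.fst ℤ ℤ ℤ) ∘ₗ (LinearMap.snd ℤ ℤ (ℤ × ℤ)))) ∘ₗ G.subtype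
      have hπ : Function.Injective π := by
        rw [injective_iff_map_eq_zero]
        rintro ⟨x, hx⟩ hx0
        have e1 : x.1 = 0 := congrArg Prod.fst hx0
        have e2 : x.2.1 = 0 := congrArg Prod.snd hx0
        have e3 := hG x hx
        unfold mD at e3
        have e4 : mP w x = 0 := by unfold mP; rw [e1, e2]; ring
        have e5 : mP v x = 0 := by unfold mP; rw [e1, e2]; ring
        rw [e4, e5] at e3
        have e6 : x.2.2 = 0 := by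
          have : x.2.2 * mP v w = 0 := by linarith
          rcases mul_eq_zero.mp this with h | h
          · exact h
          · exact absurd h hP
        apply Subtype.ext
        ext <;> simp [e1, e2, e6]
      have := LinearMap.finrank_le_finrank_of_injective hπ
      simpa using this
    · have hli : LinearIndependent ℤ ![(⟨v, hvG⟩ : G), ⟨w, hwG⟩] := by
        rw [LinearIndependent.pair_iff]
        intro s t hst
        have hst' : s • v + t • w = 0 := congrArg Subtype.val hst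
        have e1 : s * v.1 + t * w.1 = 0 := by simpa using congrArg Prod.fst hst'
        have e2 : s * v.2.1 + t * w.2.1 = 0 := by simpa using congrArg (fun z => z.2.1) hst'
        have f1 : s * mP v w = 0 := by unfold mP; linear_combination w.2.1 * e1 - w.1 * e2
        have f2 : t * mP v w = 0 := by unfold mP; linear_combination v.1 * e2 - v.2.1 * e1
        exact ⟨(mul_eq_zero.mp f1).resolve_right hP, (mul_eq_zero.mp f2).resolve_right hP⟩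
      simpa using hli.fintype_card_le_finrank
  let b := Module.finBasisOfFinrankEq ℤ G hfr
  obtain ⟨b0, hb0⟩ : ∃ z : ℤ × ℤ × ℤ, z = (b 0 : ℤ × ℤ × ℤ) := ⟨_, rfl⟩
  obtain ⟨b1, hb1⟩ : ∃ z : ℤ × ℤ × ℤ, z = (b 1 : ℤ × ℤ × ℤ) := ⟨_, rfl⟩
  have hco : ∀ x ∈ G, ∃ y : Fin 2 → ℤ, x = y 0 • b0 + y 1 • b1 := by
    intro x hx
    refine ⟨fun i => b.repr ⟨x, hx⟩ i, ?_⟩
    have := b.sum_repr ⟨x, hx⟩
    rw [Fin.sum_univ_two] at this
    have h := congrArg Subtype.val this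
    rw [hb0, hb1]
    simpa using h.symm
  have hcomp : ∀ {x : ℤ × ℤ × ℤ} {y : Fin 2 → ℤ}, x = y 0 • b0 + y 1 • b1 →
      x.1 = y 0 * b0.1 + y 1 * b1.1 ∧ x.2.1 = y 0 * b0.2.1 + y 1 * b1.2.1 ∧
      x.2.2 = y 0 * b0.2.2 + y 1 * b1.2.2 := by
    intro x y h
    rw [h]
    simp
  have hco' : ∀ x ∈ V, ∃ y : Fin 2 → ℤ, x = y 0 • b0 + y 1 • b1 := fun x hx =>
    hco x (Submodule.subset_span hx)
  choose! f hf using hco'
  obtain ⟨α, hα⟩ := hco v hvG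
  obtain ⟨β, hβ⟩ := hco w hwG
  obtain ⟨va, vb, vc⟩ := hcomp hα
  obtain ⟨wa, wb, wc⟩ := hcomp hβ
  let A : Matrix (Fin 2) (Fin 2) ℤ := !![α 0, β 0; α 1, β 1]
  have hA : A.det = α 0 * β 1 - β 0 * α 1 := by simp [A, Matrix.det_fin_two]
  have hPA : mP v w = A.det * mP b0 b1 := by
    rw [hA]; unfold mP; rw [va, vb, wa, wb]; ring
  have hA0 : A.det ≠ 0 := by
    intro h; rw [h, zero_mul] at hPA; exact hP hPA
  have hP0 : mP b0 b1 ≠ 0 := by
    intro h; rw [h, mul_zero] at hPA; exact hP hPA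
  have hAR : (A.det : ℝ) ≠ 0 := by exact_mod_cast hA0
  have hinj : Set.InjOn f (V : Set (ℤ × ℤ × ℤ)) := by
    intro x hx y hy hxy
    rw [hf x hx, hf y hy, hxy]
  have hT := card_parallelepiped A hA0 (V.image f) (by
    intro z hz
    obtain ⟨x, hx, rfl⟩ := Finset.mem_image.mp hz
    obtain ⟨xa, xb, xc⟩ := hcomp (hf x hx)
    have k1 : mP x w = (f x 0 * β 1 - β 0 * f x 1) * mP b0 b1 := by
      unfold mP; rw [xa, xb, wa, wb]; ring
    have k2 : mP v x = (α 0 * f x 1 - f x 0 * α 1) * mP b0 b1 := by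
      unfold mP; rw [xa, xb, va, vb]; ring
    have key : ∀ t : ℤ, |t * mP b0 b1| ≤ |mP v w| → |(t : ℝ) / A.det| ≤ 1 := by
      intro t ht
      rw [abs_div, div_le_one (abs_pos.mpr hAR)]
      rw [hPA, abs_mul, abs_mul] at ht
      have := le_of_mul_le_mul_right ht (abs_pos.mpr hP0)
      exact_mod_cast this
    refine ⟨![((f x 0 * β 1 - β 0 * f x 1 : ℤ) : ℝ) / A.det, ((α 0 * f x 1 - f x 0 * α 1 : ℤ) : ℝ) / A.det], ?_, ?_⟩
    · intro i
      fin_cases i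
      · exact key _ (by rw [← k1]; exact hmax (x, w) (by simp [hx, hw]))
      · exact key _ (by rw [← k2]; exact hmax (v, x) (by simp [hx, hv]))
    · intro i
      rw [Fin.sum_univ_two]
      have aux : ∀ (u1 u2 c0 c1 y D : ℝ), D ≠ 0 → u1 * c0 + u2 * c1 = y * D →
          y = u1 * (c0 / D) + u2 * (c1 / D) := by
        intro u1 u2 c0 c1 y D hD h
        field_simp
        linarith
      have hd : (A.det : ℝ) = (α 0 : ℝ) * β 1 - β 0 * α 1 := by rw [hA]; push_cast; ring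
      fin_cases i
      · refine aux _ _ _ _ _ _ hAR ?_
        rw [hd]
        simp [A]
        ring
      · refine aux _ _ _ _ _ _ hAR ?_
        rw [hd]
        simp [A]
        ring)
  rw [Finset.card_image_of_injOn hinj, Fintype.card_fin] at hT
  -- the two bilinear forms
  have hE : ∀ {x : ℤ × ℤ × ℤ} {y : Fin 2 → ℤ}, x = y 0 • b0 + y 1 • b1 →
      mE θ θ' x = y 0 * mE θ θ' b0 + y 1 * mE θ θ' b1 := by
    intro x y h
    obtain ⟨e1, e2, e3⟩ := hcomp h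
    unfold mE
    rw [e1, e2, e3]
    push_cast
    ring
  have hAabs : |(A.det : ℝ)| * |((mP b0 b1 : ℤ) : ℝ)| = |((mP v w : ℤ) : ℝ)| := by
    rw [hPA]; push_cast; rw [abs_mul]
  have hE1 : (w.2.1 : ℝ) * mE θ θ' v - v.2.1 * mE θ θ' w =
      A.det * (b1.2.1 * mE θ θ' b0 - b0.2.1 * mE θ θ' b1) := by
    rw [hE hα, hE hβ, hA, vb, wb]
    push_cast
    ring
  have hE2 : (w.1 : ℝ) * mE θ θ' v - v.1 * mE θ θ' w =
      A.det * (b1.1 * mE θ θ' b0 - b0.1 * mE θ θ' b1) := by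
    rw [hE hα, hE hβ, hA, va, wa]
    push_cast
    ring
  obtain ⟨q1, q2, q3, q4, q5⟩ := hV v hv
  obtain ⟨r1, r2, r3, r4, r5⟩ := hV w hw
  have bd : ∀ s t : ℤ, 0 < s → s ≤ M → 0 < t → t ≤ M →
      |(s : ℝ) * mE θ θ' v - t * mE θ θ' w| ≤ 2 * M * δ := by
    intro s t hs hs' ht ht'
    have i1 : |(s : ℝ) * mE θ θ' v| ≤ M * δ := by
      rw [abs_mul, abs_of_pos (by exact_mod_cast hs : (0:ℝ) < s)]
      exact mul_le_mul (by exact_mod_cast hs') q5 (abs_nonneg _) (by positivity)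
    have i2 : |(t : ℝ) * mE θ θ' w| ≤ M * δ := by
      rw [abs_mul, abs_of_pos (by exact_mod_cast ht : (0:ℝ) < t)]
      exact mul_le_mul (by exact_mod_cast ht') r5 (abs_nonneg _) (by positivity)
    rw [abs_le] at i1 i2 ⊢
    constructor <;> linarith [i1.1, i1.2, i2.1, i2.2]
  have fin1 : ∀ B C : ℝ, C = A.det * B → |C| ≤ 2 * M * δ → |B| * V.card ≤ 18 * M * δ := by
    intro B C hC hb
    calc |B| * V.card ≤ |B| * (3 ^ 2 * |(A.det : ℝ)|) := by gcongr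
      _ = 9 * |C| := by rw [hC, abs_mul]; ring
      _ ≤ 9 * (2 * M * δ) := by gcongr
      _ = _ := by ring
  have sgn : ((mP b0 b1).natAbs : ℤ) = mP b0 b1 ∨ ((mP b0 b1).natAbs : ℤ) = -mP b0 b1 := by
    rcases le_total 0 (mP b0 b1) with h | h
    · left; exact Int.natAbs_of_nonneg h
    · right; exact Int.ofNat_natAbs_of_nonpos h
  have neg : ∀ (t : ℝ) (a : ℤ) (B : ℝ), (mP b0 b1 : ℝ) * t - a = B →
      ∃ a' : ℤ, |((mP b0 b1).natAbs : ℝ) * t - a'| = |B| := by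
    intro t a B hB
    rcases sgn with h | h
    · refine ⟨a, ?_⟩
      have h' : ((mP b0 b1).natAbs : ℝ) = (mP b0 b1 : ℝ) := by rw [← Int.cast_natCast, h]
      rw [h', hB]
    · refine ⟨-a, ?_⟩
      have h' : ((mP b0 b1).natAbs : ℝ) = -(mP b0 b1 : ℝ) := by
        rw [← Int.cast_natCast, h]; push_cast; ring
      rw [h', ← hB, ← abs_neg]
      congr 1
      push_cast
      ring
  refine ⟨(mP b0 b1).natAbs, Int.natAbs_pos.mpr hP0, ?_, ?_, ?_⟩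
  · have h' : ((mP b0 b1).natAbs : ℝ) = |((mP b0 b1 : ℤ) : ℝ)| := by
      rw [Nat.cast_natAbs]; push_cast; rfl
    have hPM : |((mP v w : ℤ) : ℝ)| ≤ (M : ℝ) ^ 2 := by exact_mod_cast mP_abs hV hv hw
    calc ((mP b0 b1).natAbs : ℝ) * V.card ≤ |((mP b0 b1 : ℤ) : ℝ)| * (3 ^ 2 * |(A.det : ℝ)|) := by
          rw [h']; gcongr
      _ = 9 * |((mP v w : ℤ) : ℝ)| := by rw [← hAabs]; ring
      _ ≤ 9 * (M : ℝ) ^ 2 := by gcongr
  · obtain ⟨a, ha⟩ := neg θ (b0.2.2 * b1.2.1 - b1.2.2 * b0.2.1)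
      (b1.2.1 * mE θ θ' b0 - b0.2.1 * mE θ θ' b1) (by unfold mP mE; push_cast; ring)
    refine ⟨a, ?_⟩
    rw [ha]
    exact fin1 _ _ hE1 (bd _ _ r3 r4 q3 q4)
  · obtain ⟨a, ha⟩ := neg θ' (b0.2.2 * b1.1 - b1.2.2 * b0.1)
      (b1.1 * mE θ θ' b0 - b0.1 * mE θ θ' b1) (by unfold mP mE; push_cast; ring)
    refine ⟨a, ?_⟩
    rw [ha]
    exact fin1 _ _ hE2 (bd _ _ r1 r2 q1 q2)

/-- the third minor is small if the first one vanishes -/
theorem kappa_le {θ θ' δ : ℝ} {M : ℕ} {V : Finset (ℤ × ℤ × ℤ)} (hV : RelSet θ θ' δ M V)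
    {v w : ℤ × ℤ × ℤ} (hv : v ∈ V) (hw : w ∈ V) (h : mP v w = 0) :
    |((w.1 * v.2.2 - v.1 * w.2.2 : ℤ) : ℝ)| ≤ 2 * M * δ := by
  obtain ⟨q1, q2, q3, q4, q5⟩ := hV v hv
  obtain ⟨r1, r2, r3, r4, r5⟩ := hV w hw
  have e1 : v.1 * w.2.1 = w.1 * v.2.1 := by
    unfold mP at h
    linarith
  have i0 : ((w.1 * v.2.2 - v.1 * w.2.2 : ℤ) : ℝ) = -((w.1 : ℝ) * mE θ θ' v - v.1 * mE θ θ' w) := by
    have e1' : (v.1 : ℝ) * w.2.1 = w.1 * v.2.1 := by exact_mod_cast e1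
    unfold mE
    push_cast
    linear_combination θ' * e1'
  have i1 : |(w.1 : ℝ) * mE θ θ' v| ≤ M * δ := by
    rw [abs_mul, abs_of_pos (by exact_mod_cast r1 : (0:ℝ) < w.1)]
    exact mul_le_mul (by exact_mod_cast r2) q5 (abs_nonneg _) (by positivity)
  have i2 : |(v.1 : ℝ) * mE θ θ' w| ≤ M * δ := by
    rw [abs_mul, abs_of_pos (by exact_mod_cast q1 : (0:ℝ) < v.1)]
    exact mul_le_mul (by exact_mod_cast q2) r5 (abs_nonneg _) (by positivity)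
  rw [i0, abs_neg]
  rw [abs_le] at i1 i2 ⊢
  constructor <;> linarith [i1.1, i1.2, i2.1, i2.2]

/-- vertical rank 2 -/
theorem rank2v {θ θ' δ : ℝ} {M : ℕ} {V : Finset (ℤ × ℤ × ℤ)} (hV : RelSet θ θ' δ M V)
    (h2 : ∀ v ∈ V, ∀ w ∈ V, mP v w = 0) (h1 : ∃ v ∈ V, ∃ w ∈ V, w.1 * v.2.2 ≠ v.1 * w.2.2) :
    (V.card : ℝ) ≤ 18 * M * δ := by
  classical
  obtain ⟨v0, hv0, w0, hw0, h0⟩ := h1
  obtain ⟨q1, q2, q3, q4, q5⟩ := hV v0 hv0
  obtain ⟨g, hg⟩ : ∃ g : ℕ, g = Int.gcd v0.1 v0.2.1 := ⟨_, rfl⟩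
  have hg0 : 0 < g := by rw [hg]; exact Int.gcd_pos_of_ne_zero_left _ q1.ne'
  have hgZ : (0 : ℤ) < g := by exact_mod_cast hg0
  obtain ⟨a, ha⟩ : (g : ℤ) ∣ v0.1 := by rw [hg]; exact Int.gcd_dvd_left ..
  obtain ⟨a', ha'⟩ : (g : ℤ) ∣ v0.2.1 := by rw [hg]; exact Int.gcd_dvd_right ..
  obtain ⟨x, y, hxy⟩ : ∃ x y : ℤ, x * a + y * a' = 1 := by
    obtain ⟨s, t, e1⟩ : ∃ s t : ℤ, (g : ℤ) = v0.1 * s + v0.2.1 * t :=
      ⟨_, _, by rw [hg]; exact Int.gcd_eq_gcd_ab _ _⟩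
    refine ⟨s, t, ?_⟩
    have : (g : ℤ) * (s * a + t * a') = g * 1 := by
      rw [ha, ha'] at e1
      linear_combination -e1
    exact mul_left_cancel₀ hgZ.ne' this
  have ha0 : 0 < a := by
    rw [ha] at q1; exact (mul_pos_iff_of_pos_left hgZ).mp q1
  have hmul : ∀ w ∈ V, ∃ t : ℤ, w.1 = a * t ∧ w.2.1 = a' * t := by
    intro w hw
    have e1 : v0.1 * w.2.1 = w.1 * v0.2.1 := by
      have := h2 v0 hv0 w hw
      unfold mP at this
      linarith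
    have f1 : w.1 * a' = a * w.2.1 := by
      rw [ha, ha'] at e1
      have : (g : ℤ) * (w.1 * a') = g * (a * w.2.1) := by linear_combination -e1
      exact mul_left_cancel₀ hgZ.ne' this
    have g1 : w.1 = a * (x * w.1 + y * w.2.1) := by
      linear_combination (-w.1) * hxy + y * f1
    refine ⟨x * w.1 + y * w.2.1, g1, ?_⟩
    have : a * w.2.1 = a * (a' * (x * w.1 + y * w.2.1)) := by
      rw [← f1]
      linear_combination a' * g1
    exact mul_left_cancel₀ ha0.ne' this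
  choose! t ht1 ht2 using hmul
  obtain ⟨⟨v, w⟩, hm, hmax⟩ := Finset.exists_max_image (V ×ˢ V)
    (fun p => |t p.1 * p.2.2.2 - t p.2 * p.1.2.2|) ⟨(v0, w0), by simp [hv0, hw0]⟩
  simp only [Finset.mem_product] at hm
  obtain ⟨hv, hw⟩ := hm
  have hD : t v * w.2.2 - t w * v.2.2 ≠ 0 := by
    have hh := hmax (v0, w0) (by simp [hv0, hw0])
    intro h
    simp only [h, abs_zero] at hh
    have h' := abs_nonpos_iff.mp hh
    apply h0
    rw [ht1 v0 hv0, ht1 w0 hw0]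
    linear_combination (-a) * h'
  let A : Matrix (Fin 2) (Fin 2) ℤ := !![t v, t w; v.2.2, w.2.2]
  have hA : A.det = t v * w.2.2 - t w * v.2.2 := by simp [A, Matrix.det_fin_two]
  have hAR : (A.det : ℝ) ≠ 0 := by rw [hA]; exact_mod_cast hD
  let f : ℤ × ℤ × ℤ → (Fin 2 → ℤ) := fun z => ![t z, z.2.2]
  have hinj : Set.InjOn f (V : Set (ℤ × ℤ × ℤ)) := by
    intro p hp q hq hpq
    have hp' : p ∈ V := hp
    have hq' : q ∈ V := hq
    have e0 := congrFun hpq 0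
    have e1 := congrFun hpq 1
    simp [f] at e0 e1
    ext
    · rw [ht1 p hp', ht1 q hq', e0]
    · rw [ht2 p hp', ht2 q hq', e0]
    · exact e1
  have hT := card_parallelepiped A (by rw [hA]; exact hD) (V.image f) (by
    intro z hz
    obtain ⟨p, hp, rfl⟩ := Finset.mem_image.mp hz
    have key : ∀ s : ℤ, |s| ≤ |t v * w.2.2 - t w * v.2.2| → |(s : ℝ) / A.det| ≤ 1 := by
      intro s hs
      rw [abs_div, div_le_one (abs_pos.mpr hAR), hA]
      exact_mod_cast hs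
    refine ⟨![((t p * w.2.2 - t w * p.2.2 : ℤ) : ℝ) / A.det, ((t v * p.2.2 - t p * v.2.2 : ℤ) : ℝ) / A.det], ?_, ?_⟩
    · intro i
      fin_cases i
      · exact key _ (hmax (p, w) (by simp [hp, hw]))
      · exact key _ (hmax (v, p) (by simp [hp, hv]))
    · intro i
      rw [Fin.sum_univ_two]
      have aux : ∀ (u1 u2 c0 c1 y D : ℝ), D ≠ 0 → u1 * c0 + u2 * c1 = y * D →
          y = u1 * (c0 / D) + u2 * (c1 / D) := by
        intro u1 u2 c0 c1 y D hD h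
        field_simp
        linarith
      have hd : (A.det : ℝ) = (t v : ℝ) * w.2.2 - t w * v.2.2 := by rw [hA]; push_cast; ring
      fin_cases i
      · refine aux _ _ _ _ _ _ hAR ?_
        rw [hd]
        simp [A, f]
        ring
      · refine aux _ _ _ _ _ _ hAR ?_
        rw [hd]
        simp [A, f]
        ring)
  rw [Finset.card_image_of_injOn hinj, Fintype.card_fin] at hT
  have hk := kappa_le hV hv hw (h2 v hv w hw)
  have hk2 : |(A.det : ℝ)| ≤ 2 * M * δ := by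
    refine le_trans ?_ hk
    have e : ((w.1 * v.2.2 - v.1 * w.2.2 : ℤ) : ℝ) = -(a * A.det) := by
      rw [hA, ht1 v hv, ht1 w hw]
      push_cast
      ring
    rw [e, abs_neg, abs_mul, abs_of_pos (by exact_mod_cast ha0 : (0:ℝ) < a)]
    have : (1 : ℝ) ≤ a := by exact_mod_cast ha0
    exact le_mul_of_one_le_left (abs_nonneg _) this
  calc (V.card : ℝ) ≤ 3 ^ 2 * |(A.det : ℝ)| := hT
    _ ≤ 3 ^ 2 * (2 * M * δ) := by gcongr
    _ = _ := by ring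

/-- rank 1 -/
theorem rank1 {θ θ' δ : ℝ} {M : ℕ} {V : Finset (ℤ × ℤ × ℤ)} (hV : RelSet θ θ' δ M V)
    (hne : V.Nonempty) (h2 : ∀ v ∈ V, ∀ w ∈ V, mP v w = 0)
    (h1 : ∀ v ∈ V, ∀ w ∈ V, w.1 * v.2.2 = v.1 * w.2.2) :
    ∃ m m' : ℕ, ∃ k : ℤ, 1 ≤ m ∧ 1 ≤ m' ∧ (m : ℝ) * V.card ≤ M ∧ (m' : ℝ) * V.card ≤ M ∧
      |m * θ - m' * θ' - k| * V.card ≤ δ := by
  classical
  obtain ⟨v, hv⟩ := hne
  obtain ⟨q1, q2, q3, q4, q5⟩ := hV v hv
  -- primitive vector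
  obtain ⟨g, hg⟩ : ∃ g : ℕ, g = Int.gcd v.1 (Int.gcd v.2.1 v.2.2) := ⟨_, rfl⟩
  have hg0 : 0 < g := by
    rw [hg]; exact Int.gcd_pos_of_ne_zero_left _ q1.ne'
  have d1 : (g : ℤ) ∣ v.1 := by rw [hg]; exact Int.gcd_dvd_left ..
  have d0 : (g : ℤ) ∣ (Int.gcd v.2.1 v.2.2 : ℤ) := by rw [hg]; exact Int.gcd_dvd_right ..
  have d2 : (g : ℤ) ∣ v.2.1 := d0.trans (Int.gcd_dvd_left ..)
  have d3 : (g : ℤ) ∣ v.2.2 := d0.trans (Int.gcd_dvd_right ..)
  obtain ⟨a, ha⟩ := d1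
  obtain ⟨a', ha'⟩ := d2
  obtain ⟨c, hc⟩ := d3
  have hgZ : (0 : ℤ) < g := by exact_mod_cast hg0
  have hbez : ∃ x y z : ℤ, x * a + y * a' + z * c = 1 := by
    obtain ⟨s, t, e1⟩ : ∃ s t : ℤ, (g : ℤ) = v.1 * s + (Int.gcd v.2.1 v.2.2 : ℤ) * t :=
      ⟨_, _, by rw [hg]; exact Int.gcd_eq_gcd_ab _ _⟩
    obtain ⟨s', t', e2⟩ : ∃ s' t' : ℤ, (Int.gcd v.2.1 v.2.2 : ℤ) = v.2.1 * s' + v.2.2 * t' :=
      ⟨_, _, Int.gcd_eq_gcd_ab _ _⟩
    refine ⟨s, s' * t, t' * t, ?_⟩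
    have : (g : ℤ) * (s * a + s' * t * a' + t' * t * c) = g * 1 := by
      rw [e2, ha, ha', hc] at e1
      linear_combination -e1
    exact mul_left_cancel₀ hgZ.ne' this
  obtain ⟨x, y, z, hxyz⟩ := hbez
  have ha0 : 0 < a := by
    rw [ha] at q1; exact (mul_pos_iff_of_pos_left hgZ).mp q1
  have ha0' : 0 < a' := by
    rw [ha'] at q3; exact (mul_pos_iff_of_pos_left hgZ).mp q3
  -- every w is a multiple
  have hmul : ∀ w ∈ V, ∃ t : ℤ, 0 < t ∧ w.1 = a * t ∧ w.2.1 = a' * t ∧ w.2.2 = c * t := by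
    intro w hw
    obtain ⟨r1, r2, r3, r4, r5⟩ := hV w hw
    have e1 : v.1 * w.2.1 = w.1 * v.2.1 := by
      have := h2 v hv w hw
      unfold mP at this
      linarith
    have e2 : w.1 * v.2.2 = v.1 * w.2.2 := h1 v hv w hw
    have f1 : w.1 * a' = a * w.2.1 := by
      rw [ha, ha'] at e1
      have : (g : ℤ) * (w.1 * a') = g * (a * w.2.1) := by linear_combination -e1
      exact mul_left_cancel₀ hgZ.ne' this
    have f2 : w.1 * c = a * w.2.2 := by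
      rw [ha, hc] at e2
      have : (g : ℤ) * (w.1 * c) = g * (a * w.2.2) := by linear_combination e2
      exact mul_left_cancel₀ hgZ.ne' this
    have g1 : w.1 = a * (x * w.1 + y * w.2.1 + z * w.2.2) := by
      linear_combination (-w.1) * hxyz + y * f1 + z * f2
    refine ⟨x * w.1 + y * w.2.1 + z * w.2.2, ?_, g1, ?_, ?_⟩
    · rw [g1] at r1
      exact (mul_pos_iff_of_pos_left ha0).mp r1
    · have : a * w.2.1 = a * (a' * (x * w.1 + y * w.2.1 + z * w.2.2)) := by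
        rw [← f1]
        linear_combination a' * g1
      exact mul_left_cancel₀ ha0.ne' this
    · have : a * w.2.2 = a * (c * (x * w.1 + y * w.2.1 + z * w.2.2)) := by
        rw [← f2]
        linear_combination c * g1
      exact mul_left_cancel₀ ha0.ne' this
  choose! t ht0 ht1 ht2 ht3 using hmul
  obtain ⟨w, hw, hwmax⟩ := Finset.exists_max_image V t ⟨v, hv⟩
  have hinj : Set.InjOn t (V : Set (ℤ × ℤ × ℤ)) := by
    intro p hp q hq hpq
    have hp' : p ∈ V := hp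
    have hq' : q ∈ V := hq
    ext
    · rw [ht1 p hp', ht1 q hq', hpq]
    · rw [ht2 p hp', ht2 q hq', hpq]
    · rw [ht3 p hp', ht3 q hq', hpq]
  have hcard : (V.card : ℤ) ≤ t w := by
    have h := Finset.card_le_card_of_injOn t (t := Finset.Icc 1 (t w)) (by
      intro p hp
      have hp' : p ∈ V := hp
      rw [Finset.coe_Icc, Set.mem_Icc]
      exact ⟨ht0 p hp', hwmax p hp'⟩) hinj
    rw [Int.card_Icc] at h
    have := ht0 w hw
    omega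
  have hcR : (V.card : ℝ) ≤ t w := by exact_mod_cast hcard
  obtain ⟨r1, r2, r3, r4, r5⟩ := hV w hw
  obtain ⟨m, rfl⟩ := Int.eq_ofNat_of_zero_le ha0.le
  obtain ⟨m', rfl⟩ := Int.eq_ofNat_of_zero_le ha0'.le
  refine ⟨m, m', c, by exact_mod_cast ha0, by exact_mod_cast ha0', ?_, ?_, ?_⟩
  · calc (m : ℝ) * V.card ≤ m * t w := by gcongr
      _ ≤ M := by rw [ht1 w hw] at r2; exact_mod_cast r2
  · calc (m' : ℝ) * V.card ≤ m' * t w := by gcongr
      _ ≤ M := by rw [ht2 w hw] at r4; exact_mod_cast r4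
  · have ht : (0 : ℝ) < t w := by exact_mod_cast ht0 w hw
    calc |(m : ℝ) * θ - m' * θ' - c| * V.card ≤ |(m : ℝ) * θ - m' * θ' - c| * t w := by gcongr
      _ = |mE θ θ' w| := by
          nth_rewrite 1 [← abs_of_pos ht]
          rw [← abs_mul]
          congr 1
          unfold mE
          rw [ht1 w hw, ht2 w hw, ht3 w hw]
          push_cast
          ring
      _ ≤ δ := r5

/-- RELATION LEMMA -/
theorem relation (θ θ' δ : ℝ) (M : ℕ) (V : Finset (ℤ × ℤ × ℤ)) (hδ : 0 ≤ δ) (hM : 2 * M * δ < 1)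
    (hV : RelSet θ θ' δ M V) (hne : V.Nonempty) :
    (V.card : ℝ) ≤ 81 * (M : ℝ) ^ 2 * δ ∨
    (∃ D : ℕ, 1 ≤ D ∧ (D : ℝ) * V.card ≤ 9 * (M : ℝ) ^ 2 ∧
      (∃ a : ℤ, |D * θ - a| * V.card ≤ 18 * M * δ) ∧ ∃ a : ℤ, |D * θ' - a| * V.card ≤ 18 * M * δ) ∨
    (∃ m m' : ℕ, ∃ k : ℤ, 1 ≤ m ∧ 1 ≤ m' ∧ (m : ℝ) * V.card ≤ M ∧ (m' : ℝ) * V.card ≤ M ∧
      |m * θ - m' * θ' - k| * V.card ≤ δ) := by
  by_cases h3 : ∃ u ∈ V, ∃ v ∈ V, ∃ w ∈ V, mD u v w ≠ 0
  · exact Or.inl (rank3 hV hδ h3)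
  push Not at h3
  by_cases h2 : ∃ v ∈ V, ∃ w ∈ V, mP v w ≠ 0
  · exact Or.inr (Or.inl (rank2 hV hδ h3 h2))
  push Not at h2
  refine Or.inr (Or.inr (rank1 hV hne h2 ?_))
  intro v hv w hw
  have hk : |(w.1 * v.2.2 - v.1 * w.2.2 : ℤ)| < 1 := by
    exact_mod_cast lt_of_le_of_lt (kappa_le hV hv hw (h2 v hv w hw)) hM
  rw [Int.abs_lt_one_iff] at hk
  linarith

/-- RELATION LEMMA, version for a set of pairs -/
theorem relation_pairs (θ θ' δ : ℝ) (M : ℕ) (P : Finset (ℕ × ℕ)) (hδ : 0 ≤ δ) (hM : 2 * M * δ < 1)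
    (hP : ∀ p ∈ P, 1 ≤ p.1 ∧ p.1 ≤ M ∧ 1 ≤ p.2 ∧ p.2 ≤ M ∧ ∃ k : ℤ, |p.1 * θ - p.2 * θ' - k| ≤ δ)
    (hne : P.Nonempty) :
    (P.card : ℝ) ≤ 81 * (M : ℝ) ^ 2 * δ ∨
    (∃ D : ℕ, 1 ≤ D ∧ (D : ℝ) * P.card ≤ 9 * (M : ℝ) ^ 2 ∧
      (∃ a : ℤ, |D * θ - a| * P.card ≤ 18 * M * δ) ∧ ∃ a : ℤ, |D * θ' - a| * P.card ≤ 18 * M * δ) ∨
    (∃ m m' : ℕ, ∃ k : ℤ, 1 ≤ m ∧ 1 ≤ m' ∧ (m : ℝ) * P.card ≤ M ∧ (m' : ℝ) * P.card ≤ M ∧
      |m * θ - m' * θ' - k| * P.card ≤ δ) := by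
  classical
  have hP' : ∀ p ∈ P, ∃ k : ℤ, |(p.1 : ℝ) * θ - p.2 * θ' - k| ≤ δ := fun p hp => (hP p hp).2.2.2.2
  choose! k hk using hP'
  let f : ℕ × ℕ → ℤ × ℤ × ℤ := fun p => (p.1, p.2, k p)
  have hf : Function.Injective f := by
    intro p q hpq
    have e1 : (p.1 : ℤ) = q.1 := congrArg Prod.fst hpq
    have e2 : (p.2 : ℤ) = q.2 := congrArg (fun z => z.2.1) hpq
    ext
    · exact_mod_cast e1
    · exact_mod_cast e2
  have h := relation θ θ' δ M (P.image f) hδ hM (by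
    intro v hv
    obtain ⟨p, hp, rfl⟩ := Finset.mem_image.mp hv
    obtain ⟨h1, h2, h3, h4, _⟩ := hP p hp
    refine ⟨?_, ?_, ?_, ?_, ?_⟩
    · simp only [f]; omega
    · simp only [f]; exact_mod_cast h2
    · simp only [f]; omega
    · simp only [f]; exact_mod_cast h4
    · simpa [mE, f] using hk p hp) (hne.image f)
  rw [Finset.card_image_of_injective _ hf] at h
  exact h

end Pool.Agent.Lib.MP_dd84fd_nt.RR
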